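import Pool.Agent.R620.MTL.Amalg

/-!
# Continuum many axiomatic extensions of MTL have the deductive interpolation property

For a set `S` of natural numbers let `K_S` be the class of the following MTL-chains `El I`, where
`I` is a linear order and each block `{i} × ℤ`, `i ∈ I`, carries a set of marks without two marks at
a distance `d + 1`, `d ∈ S`. Below `1` there are the elements `u x`, where `x` is the bottom
position or a position `(i, k)`, and below them the elements `n x r`, `r < 3`, both decreasing in
`x`, and the least element `0`. The product of `u x` and `u y` is `n (max x y) r`, where `r = 2` if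
`x` and `y` are equal or neighbours, `r = 1` if they are at distance `2` and the smaller one is
marked, and `r = 0` otherwise, and all other products of elements below `1` are `0`. Thus
`x ^ 3 = 0` for all `x < 1`. The class is closed under ultraproducts (`compact`), and it has the
amalgamation property since the position next to `x` and the one before it are given by terms, and
hence subalgebras are given by sets of blocks (`dip`). The set `S` can be read off the logic.
-/

set_option autoImplicit false

namespace Pool.Agent.Results.MP_6be952_lc.Continuum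

open Pool.Agent.R620.MTL

/-- The formula saying that `φ` is not `1`. -/
def ne1 (φ : Fm) : Fm := [φ].foldr imp3 .zero

/-- The formula saying `φ < ψ`. -/
def ltf (φ ψ : Fm) : Fm := ne1 (.imp ψ φ)

/-- The coatom. -/
def c0 : Fm := .or (.imp (.var 0) .zero) (.imp (.imp (.var 0) .zero) .zero)

/-- The successors of the variable `0`. -/
def xs : ℕ → Fm
  | 0 => .var 0
  | k + 1 => .imp c0 (.conj (xs k) (xs k))

/-- The formula saying that the position `k` steps after the variable `0` is marked. -/
def markf (k : ℕ) : Fm := ltf (.conj (xs k) (xs (k + 2))) (.conj c0 (xs (k + 2)))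

/-- The variable `0` is a marked position and so is the position `d + 1` steps after it. -/
def gam (d : ℕ) : Set Fm :=
  {ne1 (.var 0), ne1 (.imp (.conj (.var 0) (.var 0)) .zero), ltf (.var 0) c0, markf 0,
    markf (d + 1)}

variable {I : Type} [LinearOrder I] (μ : I → ℤ → Prop) (v : ℕ → El I)

theorem ev_ne1 (φ : Fm) : El.ev μ v (ne1 φ) = .one ↔ El.ev μ v φ ≠ .one := by
  rw [ne1, ev_foldr]
  simp [El.ev]

theorem ev_ltf (φ ψ : Fm) :
    El.ev μ v (ltf φ ψ) = .one ↔ ¬ (El.ev μ v ψ ≤ El.ev μ v φ) := by
  rw [ltf, ev_ne1]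
  simp only [El.ev]
  rw [Ne, El.res_eq_one']

theorem ev_c0 {x : X I} (h : v 0 = .u x) : El.ev μ v c0 = .u .bot := by
  simp only [c0, El.ev, h, El.res]
  exact max_eq_right (by simp)

theorem ev_xs {i : I} {k : ℤ} (h : v 0 = .u (.pt i k)) (j : ℕ) :
    El.ev μ v (xs j) = .u (.pt i (k + j)) := by
  induction j with
  | zero => simp [xs, El.ev, h]
  | succ j ih =>
    simp only [xs, El.ev, ih, ev_c0 μ v h, PI.mul_self]
    simp [El.res, X.R, add_assoc]

theorem ev_markf {i : I} {k : ℤ} (h : v 0 = .u (.pt i k)) (j : ℕ) :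
    El.ev μ v (markf j) = .one ↔ μ i (k + j) := by
  rw [markf, ev_ltf]
  simp only [El.ev, ev_xs μ v h, ev_c0 μ v h]
  have e0 : k + ((j + 2 : ℕ) : ℤ) = (k + j) + 2 := by push_cast; ring
  rw [e0]
  generalize k + (j : ℤ) = m
  simp only [El.mul, X.rr_bp]
  rw [X.max_same, max_eq_right (by omega : m ≤ m + 2), max_eq_right (X.bot_le' (X.pt i (m + 2))),
    X.rr_same, El.n_le_n]
  have e1 : ¬ (m = m + 2 ∨ m + 2 = m + 1 ∨ m = m + 2 + 1) := by omega
  rw [if_neg e1]
  by_cases hm : μ i m
  · simp [hm, X.ge3]
  · rw [if_neg]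
    · simp [hm, X.ge3]
    · rintro (⟨_, h⟩ | ⟨h, _⟩)
      · exact hm h
      · omega

theorem position (h1 : El.ev μ v (ne1 (.var 0)) = .one)
    (h2 : El.ev μ v (ne1 (.imp (.conj (.var 0) (.var 0)) .zero)) = .one)
    (h3 : El.ev μ v (ltf (.var 0) c0) = .one) : ∃ i k, v 0 = .u (.pt i k) := by
  rw [ev_ne1] at h1 h2
  rw [ev_ltf] at h3
  simp only [El.ev] at h1 h2 h3
  cases h : v 0 with
  | zero => rw [h] at h2; exact absurd rfl h2
  | one => exact absurd h h1
  | n x r => rw [h] at h2; exact absurd rfl h2
  | u x =>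
    rw [ev_c0 μ v h, h] at h3
    cases x with
    | bot => exact absurd le_rfl h3
    | pt i k => exact ⟨i, k, rfl⟩

theorem gam_iff (S : Set ℕ) (d : ℕ) : KCons S (gam d) .zero ↔ d ∈ S := by
  constructor
  · intro h
    by_contra hd
    have h1 := h Unit (fun _ k => k = 0 ∨ k = d + 1) (by
      rintro _ k e he (rfl | rfl) (h2 | h2)
      · omega
      · have : e = d := by omega
        exact hd (this ▸ he)
      · omega
      · omega) (fun _ => .u (.pt () 0)) (by
      intro γ hγ
      simp only [gam, Set.mem_insert_iff, Set.mem_singleton_iff] at hγ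
      rcases hγ with rfl | rfl | rfl | rfl | rfl
      · rw [ev_ne1]; simp [El.ev]
      · rw [ev_ne1]; simp [El.ev, El.mul, El.res]
      · rw [ev_ltf, ev_c0 _ _ rfl]; simp [El.ev]
      · rw [ev_markf _ _ rfl]; simp
      · rw [ev_markf _ _ rfl]; simp)
    simp [El.ev] at h1
  · intro hd I _ μ hμ v hv
    exfalso
    obtain ⟨i, k, h⟩ := position μ v (hv _ (by simp [gam])) (hv _ (by simp [gam]))
      (hv _ (by simp [gam]))
    have h1 := (ev_markf μ v h 0).1 (hv _ (by simp [gam]))
    have h2 := (ev_markf μ v h (d + 1)).1 (hv _ (by simp [gam]))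
    refine hμ i k d hd (by simpa using h1) ?_
    have : k + ((d + 1 : ℕ) : ℤ) = k + d + 1 := by push_cast; ring
    rwa [this] at h2

theorem kcons_inj : Function.Injective KCons := by
  intro S S' h
  ext d
  rw [← gam_iff S d, ← gam_iff S' d, h]

deriving instance Countable for Fm

theorem card_le : Cardinal.mk {L : Set Fm → Fm → Prop | IsAxExt L ∧ DIP L} ≤
    Cardinal.continuum := by
  have h1 : ∀ L : {L : Set Fm → Fm → Prop | IsAxExt L ∧ DIP L}, ∃ S : Set Fm,
      ∀ Γ φ, L.1 Γ φ ↔ MTLCons (Γ ∪ S) φ := fun L => by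
    obtain ⟨S, _, hS⟩ := L.2.1
    exact ⟨S, hS⟩
  choose f hf using h1
  have hinj : Function.Injective f := by
    intro L L' h
    apply Subtype.ext
    funext Γ φ
    exact propext (by rw [hf, hf, h])
  refine (Cardinal.mk_le_of_injective hinj).trans ?_
  rw [Cardinal.mk_set, ← Cardinal.two_power_aleph0]
  exact Cardinal.power_le_power_left (by norm_num) Cardinal.mk_le_aleph0

/-- The set of axiomatic extensions of MTL with the deductive interpolation property is
uncountable; it has the cardinality of the continuum. -/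
theorem result :
    ¬ {L : Set Fm → Fm → Prop | IsAxExt L ∧ DIP L}.Countable ∧
      Cardinal.mk {L : Set Fm → Fm → Prop | IsAxExt L ∧ DIP L} = Cardinal.continuum := by
  have h1 : Cardinal.mk {L : Set Fm → Fm → Prop | IsAxExt L ∧ DIP L} = Cardinal.continuum := by
    refine le_antisymm card_le ?_
    rw [← Cardinal.mk_set_nat]
    refine Cardinal.mk_le_of_injective (f := fun S : Set ℕ =>
      (⟨KCons S, isAxExt S, dip S⟩ : {L : Set Fm → Fm → Prop | IsAxExt L ∧ DIP L})) ?_
    intro S S' h
    exact kcons_inj (congrArg Subtype.val h)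
  refine ⟨fun h => ?_, h1⟩
  have h2 := Cardinal.le_aleph0_iff_set_countable.2 h
  rw [h1] at h2
  exact absurd Cardinal.aleph0_lt_continuum (not_lt_of_ge h2)

end Pool.Agent.Results.MP_6be952_lc.Continuum
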